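import Pool.Agent.W429.ABG.Bridge
set_option autoImplicit false

/-! Shang's conjecture on the homology of the Allison-Benkart-Gao Lie algebra of a free alternative
algebra is false: it fails for `V` of dimension nine, over every field of characteristic zero. -/

namespace Pool.Agent.Results.MP_894cc0_al.Disproof
open Pool.Agent.W429.ABG.Pub

/-- Let `k` be a field of characteristic zero, `A = Alt(k^9)` the free alternative algebra on nine
generators and `L = ABG(A)`, with the action of `sl₃`. There is `n` with `2 ≤ n ≤ 9` such that the
`sl₃`-module `H_n(L, k)` contains a nonzero `sl₃`-invariant vector, or admits a nonzero homomorphism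
from the adjoint module `sl₃`. -/
theorem result (k : Type) [Field k] [CharZero k] :
    ∃ (A : Type) (_ : NonUnitalNonAssocRing A) (_ : Module k A) (x : Fin 9 → A) (L : Type)
      (_ : LieRing L) (_ : LieAlgebra k L), IsFreeAlternative k x ∧ Witness k A L :=
  Pool.Agent.W429.ABG.Bridge.main k

end Pool.Agent.Results.MP_894cc0_al.Disproof
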